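import Pool.Agent.Lib.MP_c7b0ca_fe.G5
import Pool.Agent.Lib.MP_c7b0ca_fe.FN

/-!
Finitely generated soluble groups: products of a bounded number of commutators up to 2-power
exponents. For every step of the derived series from the fourth on, the squares of the elements
of the step and its commutators with the group are bounded modulo the next step.
-/

open scoped Pointwise commutatorElement

namespace Pool.Agent.Lib.MP_c7b0ca_h66

open Pool.Agent.Lib.MP_c7b0ca_fe

universe u

/-- the subgroup generated by the commutators `[g, y]` with `y ∈ M` and the squares of elements of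
`M` -/
def sqc {G : Type*} [Group G] (M : Subgroup G) : Subgroup G :=
  ⁅(⊤ : Subgroup G), M⁆ ⊔ Subgroup.closure {x | ∃ y ∈ M, x = y ^ 2}

theorem sqc_map {G G' : Type*} [Group G] [Group G'] (f : G →* G') (hf : Function.Surjective f)
    (M : Subgroup G) : (sqc M).map f = sqc (M.map f) := by
  rw [sqc, sqc, Subgroup.map_sup, Subgroup.map_commutator, Subgroup.map_top_of_surjective f hf,
    MonoidHom.map_closure]
  congr 2
  ext x
  constructor
  · rintro ⟨_, ⟨y, hy, rfl⟩, rfl⟩
    exact ⟨f y, Subgroup.mem_map_of_mem f hy, by simp⟩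
  · rintro ⟨_, ⟨y, hy, rfl⟩, rfl⟩
    exact ⟨y ^ 2, ⟨y, hy, rfl⟩, by simp⟩

/-- modulo a subgroup the element is a product of `n` commutators -/
def Ap {G : Type*} [Group G] (K : Subgroup G) (n : ℕ) (x : G) : Prop :=
  ∃ w ∈ (commutatorSet G) ^ n, w⁻¹ * x ∈ K

theorem Ap.mono {G : Type*} [Group G] {K : Subgroup G} {m n : ℕ} (h : m ≤ n) {x : G}
    (hx : Ap K m x) : Ap K n x := by
  obtain ⟨w, hw, h'⟩ := hx
  exact ⟨w, cs_mono h hw, h'⟩

theorem ap_bot {G : Type*} [Group G] {n : ℕ} {x : G} :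
    Ap ⊥ n x ↔ x ∈ (commutatorSet G) ^ n := by
  constructor
  · rintro ⟨w, hw, h⟩
    rw [Subgroup.mem_bot, inv_mul_eq_one] at h
    rwa [← h]
  · intro h
    exact ⟨x, h, by simp⟩

theorem Ap.trans {G : Type*} [Group G] {K L : Subgroup G} {m n : ℕ} {x : G} (hx : Ap K m x)
    (h : ∀ z ∈ K, Ap L n z) : Ap L (m + n) x := by
  obtain ⟨w, hw, h'⟩ := hx
  obtain ⟨v, hv, h''⟩ := h _ h'
  exact ⟨w * v, cs_mul hw hv, by rwa [mul_inv_rev, mul_assoc]⟩

/-- lifting products of commutators -/
theorem ap_iff {G : Type*} [Group G] (K : Subgroup G) [K.Normal] {n : ℕ} {x : G} :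
    Ap K n x ↔ (x : G ⧸ K) ∈ (commutatorSet (G ⧸ K)) ^ n := by
  constructor
  · rintro ⟨w, hw, h⟩
    have h1 : (w : G ⧸ K) = x := QuotientGroup.eq.2 h
    rw [← h1]
    exact cs_map (QuotientGroup.mk' K) hw
  · intro h
    have key : ∀ (n : ℕ) (z : G ⧸ K), z ∈ (commutatorSet (G ⧸ K)) ^ n →
        ∃ y ∈ (commutatorSet G) ^ n, (y : G ⧸ K) = z := by
      intro n
      induction n with
      | zero =>
        intro z hz
        rw [pow_zero, Set.mem_one] at hz
        refine ⟨1, ?_, ?_⟩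
        · rw [pow_zero]; exact Set.mem_one.2 rfl
        · rw [hz]; rfl
      | succ n ih =>
        intro z hz
        rw [pow_succ] at hz
        obtain ⟨a, ha, _, ⟨c, d, rfl⟩, rfl⟩ := Set.mem_mul.1 hz
        obtain ⟨y, hy, rfl⟩ := ih a ha
        obtain ⟨c, rfl⟩ := QuotientGroup.mk'_surjective K c
        obtain ⟨d, rfl⟩ := QuotientGroup.mk'_surjective K d
        refine ⟨y * ⁅c, d⁆, ?_, ?_⟩
        · rw [pow_succ]
          exact Set.mul_mem_mul hy ⟨c, d, rfl⟩
        · simp [commutatorElement_def]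
    obtain ⟨y, hy, h1⟩ := key n _ h
    exact ⟨y, hy, QuotientGroup.eq.1 h1⟩

/-- squares and commutators of `⁅T, T⁆` are bounded if this is abelian -/
theorem sqc_bounded_ab {G : Type u} [Group G] [Group.FG G] (T : Subgroup G) [T.Normal]
    (hab : ⁅⁅T, T⁆, ⁅T, T⁆⁆ = ⊥) :
    ∃ n : ℕ, ∀ s ∈ sqc ⁅T, T⁆, s ∈ (commutatorSet G) ^ n := by
  classical
  obtain ⟨n1, hn1⟩ := comm_top_bounded ⁅T, T⁆ hab
  let K : Subgroup G := ⁅(⊤ : Subgroup G), ⁅T, T⁆⁆
  let f := QuotientGroup.mk' K
  have hf : Function.Surjective f := QuotientGroup.mk'_surjective K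
  have hT' : (T.map f).Normal := Subgroup.Normal.map inferInstance f hf
  have hFG : Group.FG (G ⧸ K) := Group.fg_of_surjective hf
  have hcomm : ⁅T.map f, T.map f⁆ = (⁅T, T⁆).map f := (Subgroup.map_commutator T T f).symm
  have hcen : ⁅T.map f, T.map f⁆ ≤ Subgroup.center (G ⧸ K) := by
    rw [hcomm]
    rintro _ ⟨x, hx, rfl⟩
    rw [Subgroup.mem_center_iff]
    intro g
    obtain ⟨g, rfl⟩ := hf g
    have h1 : ⁅g, x⁆ ∈ K := Subgroup.commutator_mem_commutator (Subgroup.mem_top g) hx
    have h2 : f ⁅g, x⁆ = 1 := (QuotientGroup.eq_one_iff _).mpr h1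
    rw [map_commutatorElement] at h2
    exact commutatorElement_eq_one_iff_mul_comm.mp h2
  obtain ⟨n2, hn2⟩ := sq_bounded (T.map f) hcen
  have hsq : ∀ z ∈ ⁅T, T⁆, z ^ 2 ∈ (commutatorSet G) ^ (n2 + n1) := by
    intro z hz
    refine cs_lift K hn1 ?_
    have := hn2 (f z) (by rw [hcomm]; exact Subgroup.mem_map_of_mem f hz)
    rwa [← map_pow] at this
  have hcm : ∀ a ∈ ⁅T, T⁆, ∀ b ∈ ⁅T, T⁆, a * b = b * a := by
    intro a ha b hb
    have h1 : ⁅a, b⁆ ∈ ⁅⁅T, T⁆, ⁅T, T⁆⁆ := Subgroup.commutator_mem_commutator ha hb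
    rw [hab, Subgroup.mem_bot] at h1
    exact commutatorElement_eq_one_iff_mul_comm.mp h1
  refine ⟨n1 + (n2 + n1), fun s hs => ?_⟩
  have hKle : K ≤ ⁅T, T⁆ := Subgroup.commutator_le_right ⊤ ⁅T, T⁆
  have hcl : ∀ s ∈ Subgroup.closure {x | ∃ y ∈ ⁅T, T⁆, x = y ^ 2}, ∃ y ∈ ⁅T, T⁆, s = y ^ 2 := by
    intro s hs
    induction hs using Subgroup.closure_induction with
    | mem x hx => exact hx
    | one => exact ⟨1, Subgroup.one_mem _, by simp⟩
    | mul x y _ _ hx hy =>
      obtain ⟨a, ha, rfl⟩ := hx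
      obtain ⟨b, hb, rfl⟩ := hy
      refine ⟨a * b, Subgroup.mul_mem _ ha hb, ?_⟩
      exact ((show Commute a b from hcm a ha b hb).mul_pow 2).symm
    | inv x _ hx =>
      obtain ⟨a, ha, rfl⟩ := hx
      exact ⟨a⁻¹, Subgroup.inv_mem _ ha, by simp⟩
  have hKn : (⁅(⊤ : Subgroup G), ⁅T, T⁆⁆).Normal := inferInstance
  rw [sqc, Subgroup.mem_sup_of_normal_left] at hs
  obtain ⟨k, hk, t, ht, rfl⟩ := hs
  obtain ⟨y, hy, rfl⟩ := hcl t ht
  exact cs_mul (hn1 k hk) (hsq y hy)

/-- the subgroup generated by squares and commutators is bounded modulo the next step -/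
theorem sqc_bounded {G : Type u} [Group G] [Group.FG G] (l : ℕ) :
    ∃ n : ℕ, ∀ s ∈ sqc (derivedSeries G (l + 1)), Ap (derivedSeries G (l + 2)) n s := by
  let K := derivedSeries G (l + 2)
  let f := QuotientGroup.mk' K
  have hf : Function.Surjective f := QuotientGroup.mk'_surjective K
  let T := (derivedSeries G l).map f
  have hT : T.Normal := Subgroup.Normal.map inferInstance f hf
  have hFG : Group.FG (G ⧸ K) := Group.fg_of_surjective hf
  have h1 : ⁅T, T⁆ = (derivedSeries G (l + 1)).map f := by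
    rw [derivedSeries_succ, Subgroup.map_commutator]
  have h2 : ⁅⁅T, T⁆, ⁅T, T⁆⁆ = ⊥ := by
    rw [h1, ← Subgroup.map_commutator, Subgroup.map_eq_bot_iff, QuotientGroup.ker_mk']
    exact le_of_eq (derivedSeries_succ G (l + 1)).symm
  obtain ⟨n, hn⟩ := sqc_bounded_ab T h2
  refine ⟨n, fun s hs => (ap_iff K).2 (hn _ ?_)⟩
  rw [h1, ← sqc_map f hf]
  exact Subgroup.mem_map_of_mem f hs

/-- the commutator subgroup is bounded modulo the third step -/
theorem base_bounded {G : Type u} [Group G] [Group.FG G] :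
    ∃ n : ℕ, ∀ x ∈ commutator G, Ap (derivedSeries G 3) n x := by
  let K := derivedSeries G 3
  let f := QuotientGroup.mk' K
  have hf : Function.Surjective f := QuotientGroup.mk'_surjective K
  have hFG : Group.FG (G ⧸ K) := Group.fg_of_surjective hf
  let H := G ⧸ K
  have hH : derivedSeries H 3 = ⊥ := by
    rw [← map_derivedSeries_eq hf, Subgroup.map_eq_bot_iff, QuotientGroup.ker_mk']
  -- the second step
  have hab : ⁅derivedSeries H 2, derivedSeries H 2⁆ = ⊥ := by
    rw [← derivedSeries_succ]; exact hH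
  obtain ⟨n1, hn1⟩ := comm_top_bounded (derivedSeries H 2) hab
  let L : Subgroup H := ⁅(⊤ : Subgroup H), derivedSeries H 2⁆
  let g := QuotientGroup.mk' L
  have hg : Function.Surjective g := QuotientGroup.mk'_surjective L
  have hFG' : Group.FG (H ⧸ L) := Group.fg_of_surjective hg
  have hN : (commutator (H ⧸ L)).Normal := inferInstance
  obtain ⟨n2, hn2⟩ := nilpotent_by_abelian 2 (H ⧸ L) (commutator (H ⧸ L)) le_rfl (by
    have e : commutator (H ⧸ L) = (commutator H).map g := by
      rw [commutator_def, commutator_def, Subgroup.map_commutator,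
        Subgroup.map_top_of_surjective g hg]
    rw [e, ← lcN_map, Subgroup.map_eq_bot_iff, QuotientGroup.ker_mk']
    show ⁅⁅commutator H, commutator H⁆, commutator H⁆ ≤ L
    rw [Subgroup.commutator_comm]
    refine Subgroup.commutator_mono le_top ?_
    rw [show derivedSeries H 2 = ⁅commutator H, commutator H⁆ by
      rw [derivedSeries_succ, derivedSeries_one]])
  refine ⟨n2 + n1, fun x hx => (ap_iff K).2 ?_⟩
  have hlift : ∀ {A B : Type u} [Group A] [Group B] (φ : A →* B) (x : A), x ∈ commutator A →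
      φ x ∈ commutator B := by
    intro A B _ _ φ x hx
    have h1 : φ x ∈ (commutator A).map φ := Subgroup.mem_map_of_mem φ hx
    rw [commutator_def, Subgroup.map_commutator] at h1
    exact Subgroup.commutator_mono le_top le_top h1
  exact cs_lift L hn1 (hn2 _ (hlift g _ (hlift f _ hx)))

/-- squaring an element which is bounded modulo `derivedSeries G (l + 1)` -/
theorem sq_step {G : Type u} [Group G] [Group.FG G] (l n : ℕ) :
    ∃ m : ℕ, ∀ x : G, Ap (derivedSeries G (l + 1)) n x → Ap (derivedSeries G (l + 2)) m (x ^ 2) := by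
  obtain ⟨m, hm⟩ := sqc_bounded (G := G) l
  refine ⟨n + n + m, fun x hx => ?_⟩
  obtain ⟨w, hw, hz⟩ := hx
  refine Ap.trans (K := sqc (derivedSeries G (l + 1))) (m := n + n) ⟨w * w, cs_mul hw hw, ?_⟩ hm
  have e : (w * w)⁻¹ * x ^ 2 = ⁅w⁻¹, w⁻¹ * x⁆ * (w⁻¹ * x) ^ 2 := by
    rw [commutatorElement_def, pow_two, pow_two]
    group
  rw [e]
  refine Subgroup.mul_mem _ ?_ ?_
  · exact (le_sup_left : _ ≤ sqc (derivedSeries G (l + 1)))
      (Subgroup.commutator_mem_commutator (Subgroup.mem_top _) hz)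
  · exact (le_sup_right : _ ≤ sqc (derivedSeries G (l + 1)))
      (Subgroup.subset_closure ⟨_, hz, rfl⟩)

/-- powers: `x ^ (2 ^ k)` is bounded modulo `derivedSeries G (k + 3)` -/
theorem pow_bounded_ap {G : Type u} [Group G] [Group.FG G] (k : ℕ) :
    ∃ n : ℕ, ∀ x ∈ commutator G, Ap (derivedSeries G (k + 3)) n (x ^ 2 ^ k) := by
  induction k with
  | zero =>
    obtain ⟨n, hn⟩ := base_bounded (G := G)
    exact ⟨n, fun x hx => by simpa using hn x hx⟩
  | succ k ih =>
    obtain ⟨n, hn⟩ := ih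
    obtain ⟨m, hm⟩ := sq_step (G := G) (k + 2) n
    refine ⟨m, fun x hx => ?_⟩
    rw [pow_succ, pow_mul]
    exact hm _ (hn x hx)

/-- the elements of the commutator subgroup, bounded modulo `derivedSeries G (k + 3)`, if the
steps from the third on are finite modulo squares and commutators -/
theorem bounded_ap {G : Type u} [Group G] [Group.FG G]
    (hfin : ∀ i, 3 ≤ i → (sqc (derivedSeries G i)).relIndex (derivedSeries G i) ≠ 0) (k : ℕ) :
    ∃ n : ℕ, ∀ x ∈ commutator G, Ap (derivedSeries G (k + 3)) n x := by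
  classical
  induction k with
  | zero => exact base_bounded
  | succ k ih =>
    obtain ⟨n, hn⟩ := ih
    obtain ⟨m, hm⟩ := sqc_bounded (G := G) (k + 2)
    have h0 := hfin (k + 3) (by omega)
    let M := derivedSeries G (k + 3)
    let S := sqc M
    have hfi : Finite (M ⧸ S.subgroupOf M) := by
      have : (S.subgroupOf M).FiniteIndex := ⟨h0⟩
      infer_instance
    -- representatives
    have hle : M ≤ commutator G := by
      rw [← derivedSeries_one]
      exact derivedSeries_antitone G (by omega)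
    have hrep : ∀ q : M ⧸ S.subgroupOf M, ∃ j : ℕ, ((q.out : M) : G) ∈ (commutatorSet G) ^ j := by
      intro q
      have h1 := hle (q.out : M).2
      rw [commutator_eq_closure] at h1
      generalize ((q.out : M) : G) = y at h1
      induction h1 using Subgroup.closure_induction with
      | mem x hx => exact ⟨1, by simpa using hx⟩
      | one => exact ⟨0, by simp⟩
      | mul x y _ _ hx hy =>
        obtain ⟨a, ha⟩ := hx
        obtain ⟨b, hb⟩ := hy
        exact ⟨a + b, cs_mul ha hb⟩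
      | inv x _ hx =>
        obtain ⟨a, ha⟩ := hx
        exact ⟨a, cs_inv ha⟩
    choose j hj using hrep
    have := Fintype.ofFinite (M ⧸ S.subgroupOf M)
    let J := Finset.univ.sup j
    refine ⟨n + (J + m), fun x hx => (hn x hx).trans fun z hz => ?_⟩
    refine Ap.trans (K := S) (m := J) ?_ hm
    let z' : M := ⟨z, hz⟩
    refine ⟨(((z' : M ⧸ S.subgroupOf M).out : M) : G),
      cs_mono (Finset.le_sup (f := j) (Finset.mem_univ (z' : M ⧸ S.subgroupOf M))) (hj _), ?_⟩
    have h1 : ((z' : M ⧸ S.subgroupOf M).out)⁻¹ * z' ∈ S.subgroupOf M :=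
      QuotientGroup.eq.1 (QuotientGroup.out_eq' _)
    exact Subgroup.mem_subgroupOf.1 h1

/-- uniform bound for the powers -/
theorem pow_bounded (d k : ℕ) : ∃ n : ℕ, ∀ (G : Type u) [Group G],
    (∃ S : Finset G, S.card ≤ d ∧ Subgroup.closure (S : Set G) = ⊤) →
    derivedSeries G (k + 3) = ⊥ → ∀ x ∈ commutator G, x ^ 2 ^ k ∈ (commutatorSet G) ^ n := by
  classical
  let F := FreeGroup (Fin d)
  have hFG : Group.FG F := inferInstance
  obtain ⟨n, hn⟩ := pow_bounded_ap (G := F) k
  refine ⟨n, fun G _ hS hG x hx => ?_⟩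
  obtain ⟨S, hS, hgen⟩ := hS
  -- a surjection from the free group
  obtain ⟨s, hs⟩ : ∃ s : Fin d → G, (S : Set G) ⊆ Set.range s := by
    rcases S.eq_empty_or_nonempty with h | h
    · exact ⟨fun _ => 1, by simp [h]⟩
    · obtain ⟨e⟩ : Nonempty (S ↪ Fin d) :=
        Function.Embedding.nonempty_of_card_le (by simpa using hS)
      have : Nonempty S := h.to_subtype
      refine ⟨fun i => ((Function.invFun e i : S) : G), fun y hy => ⟨e ⟨y, hy⟩, ?_⟩⟩
      show ((Function.invFun e (e ⟨y, hy⟩) : S) : G) = y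
      rw [Function.leftInverse_invFun e.injective ⟨y, hy⟩]
  let φ : F →* G := FreeGroup.lift s
  have hφ : Function.Surjective φ := by
    rw [← MonoidHom.range_eq_top, FreeGroup.range_lift_eq_closure, eq_top_iff, ← hgen]
    exact Subgroup.closure_mono hs
  have hcom : commutator G = (commutator F).map φ := by
    rw [commutator_def, commutator_def, Subgroup.map_commutator,
      Subgroup.map_top_of_surjective φ hφ]
  rw [hcom] at hx
  obtain ⟨y, hy, rfl⟩ := hx
  obtain ⟨w, hw, hz⟩ := hn y hy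
  have h1 : φ (w⁻¹ * y ^ 2 ^ k) = 1 := by
    have h2 : φ (w⁻¹ * y ^ 2 ^ k) ∈ derivedSeries G (k + 3) := by
      rw [← map_derivedSeries_eq hφ]
      exact Subgroup.mem_map_of_mem φ hz
    rwa [hG, Subgroup.mem_bot] at h2
  rw [map_mul, map_inv, inv_mul_eq_one, map_pow] at h1
  rw [← h1]
  exact cs_map φ hw

end Pool.Agent.Lib.MP_c7b0ca_h66
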